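import Pool.Agent.Lib.MP_5d53d3_co.Exact3

open Pool.Agent.Lib.MP_5d53d3_co

theorem Pool.Agent.Results.MP_5d53d3_co.Exact.result : ∃ K : ℕ, ∀ n d t : ℕ, 4 ∣ n →
    d + t = n → 2 ^ (K * (t + 1)) ≤ n →
    (Even d ∨ ∃ a b, a * b = d ∧ a ∣ n ∧ (IsPrimePow b ∨ IsSquare b ∨
      ∃ H : Matrix (Fin (b + 1)) (Fin (b + 1)) ℤ, (∀ i j, i ≠ j → H i j = 1 ∨ H i j = -1) ∧
        ((H.transpose = H ∧ H * H.transpose = (b + 1 : ℤ) • 1) ∨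
          ((H.transpose = H ∨ H.transpose = -H) ∧ H * H.transpose = (b : ℤ) • 1)))) →
    chiD (Omega n) d = d * 2 ^ t :=
  exact_had
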