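import Pool.Agent.Lib.QY.Main

open Pool.Agent.Lib.MP_5d53d3_co

theorem Pool.Agent.Results.MP_5d53d3_co.Exponential.result (δ : ℝ) (hδ : 0 < δ) :
    ∃ ε : ℝ, 0 < ε ∧ ∀ n d : ℕ, 0 < n → 4 ∣ n → 0 < d → (d : ℝ) ≤ (1 - δ) * n →
      Real.exp (ε * n) ≤ chiD (Omega n) d :=
  Pool.Agent.Lib.QY.final δ hδ
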