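import Pool.Agent.Lib.MP_5d53d3_co.Lower

open Pool.Agent.Lib.MP_5d53d3_co

theorem Pool.Agent.Results.MP_5d53d3_co.LowerBound.result (n d : ℕ) (hn : 4 ∣ n) (hn0 : 0 < n)
    (hd : 0 < d) :
    (n : ℝ) - d ≤ 10 ^ 8 * (n : ℝ) ^ (3 / 4 : ℝ) * Real.log (n * chiD (Omega n) d) ^ 5 :=
  lower hn hn0 hd
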