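import Pool.Agent.Lib.MP_5d53d3_co.Upper3

open Pool.Agent.Lib.MP_5d53d3_co

open Classical in
theorem Pool.Agent.Results.MP_5d53d3_co.UpperBound.result (n d : ℕ) (hd : 0 < d) (h : d ≤ n) :
    chiD (Omega n) d ≤
      d * 2 ^ (n - d + if (Even n ∧ Even d) ∨ IsPrimePow d ∨ IsSquare d then 0 else 1) :=
  upper_all_even hd h
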